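import Mathlib
import Pool.Agent.W2helper58.DT.Fin
import Pool.Agent.W2helper33.DT.Over
import Pool.Agent.W2helper46.DT.Part
import Pool.Agent.W2helper97.DT.Cm
import Pool.Agent.W2helper12.DT.HH

/-!
# Deligne's period conjecture for Artin twists that become abelian over a totally real or CM field

Let `N / ℚ` be a finite Galois extension with group `G`, `M` a motive over `ℚ` and `c` an integer
which is critical for the motives `M ⊗ χ` below. Let `E` be a field which contains the coefficients
of `M` and the roots of unity of order the exponent of `G`. For an irreducible character `χ` of `G`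
and an embedding `τ : E → ℂ` let `L τ χ` be the L-function of `M ⊗ χ` and `P τ χ` its Deligne period
`c⁺(M ⊗ χ, c)` (at `τ`). Deligne's conjecture for `M ⊗ f`, where `f` is a character with values in
`E`, is `Deligne L P c f` of the library (`Pool.Agent.R389.Defs`): there is ONE element `e` of `E`
such that for every embedding `τ` the L-function of `f` at `τ` (the product of the `L τ χ` over the
constituents `χ` of `τ ∘ f`) has at `c` the limit `τ e` times the period of `f` at `τ` (the product of
the `P τ χ`). `ind U f` is the function induced from the function `f` on the subgroup `U`, so that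
for a linear character `ψ` of `Gal(N / K)` the motive `M ⊗ Ind_K^ℚ ψ` belongs to
`ind K.fixingSubgroup ψ`; its L-function is the one of `M_K ⊗ ψ` over `K`. `Irr G` is the set of the
irreducible characters. The theorem holds for arbitrary functions `L τ χ`, meromorphic and not
identically zero near `c`, and arbitrary numbers `P τ χ ≠ 0`.

The theorem. (3) Let `K₀ / ℚ` be a Galois extension in `N`. Deligne's conjecture at `c` holds for
`M ⊗ ρ` for ALL representations `ρ` of `G` which become abelian over `K₀`, if it holds for
`M ⊗ Ind_K^ℚ ψ` for all fields `K ⊆ K₀` and all linear characters `ψ` of `Gal(N / K)`, and if for each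
character `μ` of `Gal(N / K₀)` one of the following holds: `L(M_{K₀} ⊗ μ, s)` vanishes at `c` at most
to order one (for one embedding), or `Gal(K₀ / K_μ)` is nilpotent, for the fixed field `K_μ` of the
stabiliser of `μ`. The first is automatic outside the centre. If `K₀` is totally real or CM, then so
are all the fields `K`, and only twists by Hecke characters of finite order of totally real and CM
fields are used. (2) The `ρ` which become abelian over a totally real or CM field are exactly those
whose character is an integral combination, or only a rational combination, of the characters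
`Ind_K^ℚ ψ` with `K` totally real or CM and `ψ` linear. (1) There is a largest field `K₀` among the
totally real and CM subfields, it is Galois over `ℚ` (`K₀.fixingSubgroup` is normal), and all its
subfields are totally real or CM.

The proof of (3). Let `A = Gal(N / K₀)`, `μ` a linear character of `A` with stabiliser `S = stb μ`. The
part `Θ` over `μ` of the Heilbronn character `∑ ord_c L(M ⊗ χ, s) χ` is a virtual character of `S`
whose multiplicities in ALL monomial characters are natural numbers (the part over `μ` of an
induced character is zero or a character induced from a linear character of a subgroup that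
contains `A`), and `Θ(1) ≤ 1`. Hence `Θ` is zero or a linear character `λ` of `S`, and the characters of
`S` over `μ` are, up to multiples of `λ`, integral combinations of characters induced from linear
characters, not contained in `λ`, of subgroups that contain `A` (relative Brauer induction); their
L-functions do not vanish at `c`. If `S / A` is nilpotent, all irreducible characters of `S` over `μ`
are induced from linear characters of subgroups that contain `A`.
-/

set_option autoImplicit false

namespace Pool.Agent.Results.MP_cd171c_nt.AbelianOverCMFields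

open NumberField Pool.Agent.R389 Pool.Agent.H541R3.ART Filter Topology

/-- The field `K` is totally real or CM. -/
def RealOrCM {N : Type} [Field N] [NumberField N] (K : IntermediateField ℚ N) : Prop :=
  IsTotallyReal K ∨ IsCMField K

/-- The characters of `Gal(N / ℚ)` induced from the linear characters of the groups `Gal(N / K)`, for
the totally real and the CM subfields `K` of `N`. -/
def Basic (N : Type) [Field N] [NumberField N] : Set ((N ≃ₐ[ℚ] N) → ℂ) :=
  {f | ∃ (K : IntermediateField ℚ N) (ψ : K.fixingSubgroup →* ℂˣ), RealOrCM K ∧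
    f = ind K.fixingSubgroup (fun u => ((ψ u : ℂˣ) : ℂ))}

/-- The representation `ρ` of `Gal(N / ℚ)` is abelian over the subfield `K`: its values on `Gal(N / K)`
commute. -/
def AbelianOver {N : Type} [Field N] [NumberField N] {E V : Type} [Field E] [AddCommGroup V]
    [Module E V] (ρ : Representation E (N ≃ₐ[ℚ] N) V) (K : IntermediateField ℚ N) : Prop :=
  ∀ g ∈ K.fixingSubgroup, ∀ h ∈ K.fixingSubgroup, ρ g * ρ h = ρ h * ρ g

/-- For all embeddings `τ` and all irreducible characters `χ` the function `L τ χ` is meromorphic and
not identically zero near `c`, and the number `P τ χ` is not zero. -/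
def Regular {E G : Type} [Field E] [Group G] (L : (E →+* ℂ) → (G → ℂ) → ℂ → ℂ)
    (P : (E →+* ℂ) → (G → ℂ) → ℂ) (c : ℂ) : Prop :=
  ∀ τ, ∀ χ ∈ Irr G, MeromorphicAt (L τ χ) c ∧ meromorphicOrderAt (L τ χ) c ≠ ⊤ ∧ P τ χ ≠ 0

/-- The L-function of the character `f`, that is the product of the `L χ` over the constituents `χ` of
`f` (with multiplicities `m χ`), vanishes at `c` at most to order one. -/
def OrderLeOne {G : Type} [Group G] (L : (G → ℂ) → ℂ → ℂ) (c : ℂ) (f : G → ℂ) : Prop :=
  ∀ m : (G → ℂ) → ℕ, IsDecomp f m → meromorphicOrderAt (fun s => ∏ᶠ χ ∈ Irr G, L χ s ^ m χ) c ≤ 1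

/-- Deligne's conjecture at `c` for the twists by `Ind_K^ℚ ψ`, for all fields `K ⊆ K₀` and all linear
characters `ψ` of `Gal(N / K)` with values in `E`. -/
def DeligneBelow {N : Type} [Field N] [NumberField N] {E : Type} [Field E]
    (L : (E →+* ℂ) → ((N ≃ₐ[ℚ] N) → ℂ) → ℂ → ℂ) (P : (E →+* ℂ) → ((N ≃ₐ[ℚ] N) → ℂ) → ℂ) (c : ℂ)
    (K₀ : IntermediateField ℚ N) : Prop :=
  ∀ K : IntermediateField ℚ N, K ≤ K₀ → ∀ ψ : K.fixingSubgroup →* Eˣ,
    Deligne L P c (ind K.fixingSubgroup (fun u => ((ψ u : Eˣ) : E)))

/-- For each linear character `μ` of `Gal(N / K)` the quotient of its stabiliser by `Gal(N / K)` is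
nilpotent or `L(M_K ⊗ μ, s)` vanishes at `c` at most to order one. -/
def NilOrOrder {N : Type} [Field N] [NumberField N] (L : ((N ≃ₐ[ℚ] N) → ℂ) → ℂ → ℂ) (c : ℂ)
    (K : IntermediateField ℚ N) [K.fixingSubgroup.Normal] : Prop :=
  ∀ μ : K.fixingSubgroup →* ℂˣ,
    Group.IsNilpotent (stb μ ⧸ K.fixingSubgroup.subgroupOf (stb μ)) ∨
      OrderLeOne L c (ind K.fixingSubgroup (fun a => ((μ a : ℂˣ) : ℂ)))

theorem result (N : Type) [Field N] [NumberField N] [IsGalois ℚ N] :
    -- (1) the largest totally real or CM subfield
    (∃ K₀ : IntermediateField ℚ N, K₀.fixingSubgroup.Normal ∧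
      ∀ K : IntermediateField ℚ N, RealOrCM K ↔ K ≤ K₀) ∧
    -- (2) abelian over a totally real or CM field, integral combination, rational combination
    (∀ (V : Type) [AddCommGroup V] [Module ℂ V] [FiniteDimensional ℂ V]
      (ρ : Representation ℂ (N ≃ₐ[ℚ] N) V), List.TFAE [
        ∃ K : IntermediateField ℚ N, RealOrCM K ∧ AbelianOver ρ K,
        ρ.character ∈ AddSubgroup.closure (Basic N),
        ∃ n : ℤ, n ≠ 0 ∧ n • ρ.character ∈ AddSubgroup.closure (Basic N)]) ∧
    -- (3) Deligne's conjecture for all representations that are abelian over `K₀`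
    ∀ (K₀ : IntermediateField ℚ N) [K₀.fixingSubgroup.Normal] (E : Type) [Field E] (ζ : E),
      IsPrimitiveRoot ζ (Monoid.exponent (N ≃ₐ[ℚ] N)) →
      ∀ (L : (E →+* ℂ) → ((N ≃ₐ[ℚ] N) → ℂ) → ℂ → ℂ) (P : (E →+* ℂ) → ((N ≃ₐ[ℚ] N) → ℂ) → ℂ) (c : ℂ),
      Regular L P c → DeligneBelow L P c K₀ → (∃ τ₀ : E →+* ℂ, NilOrOrder (L τ₀) c K₀) →
      ∀ (V : Type) [AddCommGroup V] [Module E V] [FiniteDimensional E V]
        (ρ : Representation E (N ≃ₐ[ℚ] N) V), AbelianOver ρ K₀ → Deligne L P c ρ.character := by
  have pPART := Pool.Agent.W2helper46.DT.p_PART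
  have pHH := Pool.Agent.W2helper12.DT.p_HH
  have pCM := Pool.Agent.W2helper97.DT.p_CM
  have pOVER := Pool.Agent.W2helper33.DT.pOver
  have pOVERL := Pool.Agent.W2helper33.DT.pOverL
  refine ⟨Pool.Agent.W2helper58.DT.exists_largest pCM N,
    fun V _ _ _ ρ => Pool.Agent.W2helper58.DT.tfae pPART pOVER pCM N V ρ, ?_⟩
  intro K₀ _ E _ ζ hζ L P c hR hmon ⟨τ₀, hz⟩ V _ _ _ ρ hρ
  exact Pool.Agent.W2helper58.DT.del_field pPART pOVER pOVERL pHH K₀ hζ
    (fun τ χ hχ => ⟨(hR τ χ hχ).1, (hR τ χ hχ).2.1⟩) (fun τ χ hχ => (hR τ χ hχ).2.2) hmon τ₀ hz ρ hρ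

end Pool.Agent.Results.MP_cd171c_nt.AbelianOverCMFields
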