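import Mathlib
import Pool.Agent.W2helper23.SG.Final

/-!
# Deligne's conjecture up to sign for all the Artin twists of a motive of odd weight with
coefficients

The other definitions are in `Pool.Agent.W2helper23.DEL.Def` (the numerical data `Mot` of the
motive `M`, `IsRes`, `IsRatio`, `IsDefect`, `induce`, `Ratio`, `Defect`) and
`Pool.Agent.K4H74.SC.Core` (`Ext`, `Pair`, `G`, `IsChr`, `lin`, `logTerm`).
-/

set_option autoImplicit false

namespace Pool.Agent.Results.MP_cd171c_nt.SignTwists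

open NumberField Pool.Agent.K4H74 Pool.Agent.K4H74.SK Pool.Agent.K4H74.ST Pool.Agent.K4H34.AL
  Pool.Agent.W2helper23.DEL Pool.Agent.W2helper23.SG

/-- The faithful linear characters of the (cyclic) extensions `L / K`, `K` totally complex. -/
inductive Cx : Pair → Prop
  | complex (E : Ext) (ψ : G E →* ℂˣ) : IsTotallyComplex E.K → Function.Injective ψ →
      Cx ⟨E, lin ψ⟩

/-- The trivial character of the number field `K`. -/
noncomputable def triv (K : Type) [Field K] [NumberField K] : Pair := ⟨⟨K, K⟩, fun _ => 1⟩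

/-- `t` is the trace of the complex conjugations in the character over `ℚ` which is induced from
the character `x.2` of `Gal(L/K)`. -/
def IsTrace (x : Pair) (t : ℤ) : Prop :=
  ∀ (N : Type) [Field N] [NumberField N] [IsGalois ℚ N], (x.1.L →+* N) →
    ∀ (φ : N →+* ℂ) (c : N ≃ₐ[ℚ] N), IsRes (starRingEnd ℂ) φ c →
      induce N (K := x.1.K) (L := x.1.L) x.2 c = t

lemma Cx.isChr {x : Pair} (h : Cx x) : IsChr x.2 := by
  cases h with
  | complex E ψ _ _ => exact isChr_lin ψ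

lemma isChr_triv (K : Type) [Field K] [NumberField K] : IsChr (triv K).2 :=
  Pool.Agent.W2helper23.DEL.isChr_one ⟨K, K⟩

/-- Let `M` be the numerical data of a pure motive `M` over `ℚ` of odd weight with coefficients in
`F`, critical at `s = 0`, with `s = 0` in the region of absolute convergence. For a character `χ` of
a Galois extension `L / K` of number fields let `M(χ)` be the motive over `ℚ` which one gets from
`M_K ⊗ χ` by restriction of scalars, and `t` the trace of complex conjugation in the character over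
`ℚ` induced from `χ`.

(0) There is exactly one ratio `L(M(χ), 0) / (c⁺(M)^(m⁺) c⁻(M)^(m⁻))` for each embedding of `F` and
exactly one defect for each embedding and automorphism of `ℂ`.

(1) For each `χ` there are faithful linear characters `ψ i` of extensions of totally complex fields
and integers `k i` with `L(s, χ)^2 = ζ(s)^(2t) ∏ L(s, ψ i)^(k i)` (in terms of logarithms) such that
for all `M` the ratios and the defects of `M(χ)` satisfy the same relation.

(2) If Deligne's conjecture holds for `M` and for the `M(ψ)`, `ψ` a faithful linear character over a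
totally complex field, then it holds up to signs for all `M(χ)`: all the defects are `1` or `-1`.

(3) If the ratios of `M` and of these `M(ψ)` are algebraic then all ratios are. -/
theorem result (F : Type) [Field F] :
    -- (0)
    (∀ (M : Mot F) (x : Pair), IsChr x.2 → (∀ τ : F →+* ℂ, ∃! r : ℂ, Ratio M τ x r) ∧
      ∀ (σ : ℂ ≃+* ℂ) (τ : F →+* ℂ), ∃! u : ℂˣ, Defect M σ τ x u) ∧
    -- (1)
    (∀ x : Pair, IsChr x.2 → ∃ (t : ℤ) (r : ℕ) (y : Fin r → Pair) (k : Fin r → ℤ),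
      IsTrace x t ∧ (∀ i, Cx (y i)) ∧
      (∀ s : ℂ, 1 < s.re → ∀ (l l₀ : ℂ) (m : Fin r → ℂ), HasSum (logTerm x.2 s) l →
        HasSum (logTerm (triv ℚ).2 s) l₀ → (∀ i, HasSum (logTerm (y i).2 s) (m i)) →
        2 * l = 2 * t * l₀ + ∑ i, k i * m i) ∧
      ∀ M : Mot F,
        (∀ (τ : F →+* ℂ) (a a₀ : ℂ) (b : Fin r → ℂ), Ratio M τ x a → Ratio M τ (triv ℚ) a₀ →
          (∀ i, Ratio M τ (y i) (b i)) → a ^ 2 = a₀ ^ (2 * t) * ∏ i, b i ^ k i) ∧
        ∀ (σ : ℂ ≃+* ℂ) (τ : F →+* ℂ) (u u₀ : ℂˣ) (v : Fin r → ℂˣ), Defect M σ τ x u →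
          Defect M σ τ (triv ℚ) u₀ → (∀ i, Defect M σ τ (y i) (v i)) →
          u ^ 2 = u₀ ^ (2 * t) * ∏ i, v i ^ k i) ∧
    ∀ M : Mot F,
      -- (2)
      (∀ (σ : ℂ ≃+* ℂ) (τ : F →+* ℂ), Defect M σ τ (triv ℚ) 1 →
        (∀ y : Pair, Cx y → Defect M σ τ y 1) →
        ∀ x : Pair, IsChr x.2 → ∀ u : ℂˣ, Defect M σ τ x u → u = 1 ∨ u = -1) ∧
      -- (3)
      ∀ τ : F →+* ℂ, (∀ b : ℂ, Ratio M τ (triv ℚ) b → IsAlgebraic ℚ b) →
        (∀ y : Pair, Cx y → ∀ b : ℂ, Ratio M τ y b → IsAlgebraic ℚ b) →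
        ∀ x : Pair, IsChr x.2 → ∀ a : ℂ, Ratio M τ x a → IsAlgebraic ℚ a := by
  have hone : IsChr (triv ℚ).2 := isChr_triv ℚ
  have h1 : ∀ x : Pair, IsChr x.2 → ∃ (t : ℤ) (r : ℕ) (y : Fin r → Pair) (k : Fin r → ℤ),
      IsTrace x t ∧ (∀ i, Cx (y i)) ∧
      (∀ s : ℂ, 1 < s.re → ∀ (l l₀ : ℂ) (m : Fin r → ℂ), HasSum (logTerm x.2 s) l →
        HasSum (logTerm (triv ℚ).2 s) l₀ → (∀ i, HasSum (logTerm (y i).2 s) (m i)) →
        2 * l = 2 * t * l₀ + ∑ i, k i * m i) ∧
      ∀ M : Mot F,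
        (∀ (τ : F →+* ℂ) (a a₀ : ℂ) (b : Fin r → ℂ), Ratio M τ x a → Ratio M τ (triv ℚ) a₀ →
          (∀ i, Ratio M τ (y i) (b i)) → a ^ 2 = a₀ ^ (2 * t) * ∏ i, b i ^ k i) ∧
        ∀ (σ : ℂ ≃+* ℂ) (τ : F →+* ℂ) (u u₀ : ℂˣ) (v : Fin r → ℂˣ), Defect M σ τ x u →
          Defect M σ τ (triv ℚ) u₀ → (∀ i, Defect M σ τ (y i) (v i)) →
          u ^ 2 = u₀ ^ (2 * t) * ∏ i, v i ^ k i := by
    intro x hx
    obtain ⟨t, r, y, k, ht, hy, h⟩ := sq_form_q sign (univInv F) Cx
      (fun E hE ψ hψ => Cx.complex E ψ hE hψ) hx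
    obtain ⟨h1, h2⟩ := univ_rel h
    refine ⟨t, r, y, k, fun N _ _ _ j φ c hc => ht N j c ⟨φ, by ext z; exact (hc z).symm⟩, hy,
      h1, fun M => ⟨fun τ a a₀ b ha ha₀ hb => ?_, fun σ τ u u₀ v hu hu₀ hv => ?_⟩⟩
    · have h3 := congrArg (fun z : ℂˣ => (z : ℂ)) ((h2 M).1 τ)
      simp only [Units.val_pow_eq_pow_val, Units.val_mul, Units.val_zpow_eq_zpow_val,
        Units.coe_prod] at h3
      rw [ratio_eq hx ha, ratio_eq hone ha₀]
      refine h3.trans ?_
      congr 1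
      exact Finset.prod_congr rfl fun i _ => by rw [ratio_eq (hy i).isChr (hb i)]
    · rw [defect_eq hx hu, defect_eq hone hu₀]
      refine ((h2 M).2 σ τ).trans ?_
      congr 1
      exact Finset.prod_congr rfl fun i _ => by rw [defect_eq (hy i).isChr (hv i)]
  refine ⟨fun M x hx => ⟨fun τ => ⟨_, ratio_val τ hx, fun r hr => ratio_eq hx hr⟩,
    fun σ τ => ⟨_, defect_val σ τ hx, fun u hu => defect_eq hx hu⟩⟩, h1,
    fun M => ⟨fun σ τ hM hC x hx u hu => ?_, fun τ hM hC x hx a ha => ?_⟩⟩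
  · exact defect_sign sign hM (fun E ψ hE hψ => hC _ (Cx.complex E ψ hE hψ)) hx hu
  · obtain ⟨t, r, y, k, -, hy, -, h2⟩ := h1 x hx
    have h3 := (h2 M).1 τ a _ _ ha (ratio_val τ hone) (fun i => ratio_val τ (hy i).isChr)
    have h4 : a ^ 2 ∈ QB := by
      rw [h3]
      exact mul_mem (zpow_mem (mem_QB.mpr (hM _ (ratio_val τ hone))) _)
        (prod_mem fun i _ => zpow_mem (mem_QB.mpr (hC _ (hy i) _ (ratio_val τ (hy i).isChr))) _)
    exact IsAlgebraic.of_pow two_pos (mem_QB.mp h4)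

end Pool.Agent.Results.MP_cd171c_nt.SignTwists
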