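import Mathlib
import Pool.Agent.W2helper76.DP.Base
import Pool.Agent.W2helper76.DP.Coef

/-!
# Deligne's conjecture with coefficients over totally real fields follows from the totally complex
# fields

For a motive `M` over `ℚ` of odd weight with coefficients in `F` and a number field `K` the base
change `M_K` gives the motive `R_{K/ℚ} M_K` over `ℚ` with coefficients in `F`. The L-function is
defined in `Pool.Agent.W2helper76.DP.BaseDef`, and `frobTrace` in `Pool.Agent.W2helper76.DP.Def`.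
-/

set_option autoImplicit false

namespace Pool.Agent.Results.MP_cd171c_nt.TotallyRealFields

open NumberField Pool.Agent.K4H74.SK Pool.Agent.W2helper76.DP Pool.Agent.K4H34.AL

/-- The data of a motive `M` over `ℚ` of odd weight with coefficients in the number field `F` which
enter Deligne's conjecture for its base changes at the critical integer `s₀`, which is larger than
the centre `(w + 1) / 2`: the weight, half of the rank over `F`, a finite set which contains the
primes of bad reduction, the eigenvalues of the (geometric) Frobenius at the other primes, and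
Deligne's periods `c⁺(M, s₀)` and `c⁻(M, s₀)`, the last three for every complex embedding `τ` of
`F`. -/
structure Motive (F : Type) [Field F] where
  /-- the weight -/
  weight : ℤ
  /-- half of the rank -/
  r : ℕ
  /-- the critical integer -/
  s₀ : ℤ
  /-- the bad primes -/
  bad : Finset ℕ
  /-- the eigenvalues of the Frobenius at `p` -/
  eig : (F →+* ℂ) → ℕ → Fin (2 * r) → ℂ
  /-- the period `c⁺(M, s₀)` -/
  cplus : (F →+* ℂ) → ℂ
  /-- the period `c⁻(M, s₀)` -/
  cminus : (F →+* ℂ) → ℂ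
  odd_weight : Odd weight
  right : weight + 1 < 2 * s₀
  norm_eig : ∀ (τ : F →+* ℂ) (p : ℕ), p.Prime → p ∉ bad → ∀ i,
    ‖eig τ p i‖ = (p : ℝ) ^ ((weight : ℝ) / 2)
  cplus_ne : ∀ τ, cplus τ ≠ 0
  cminus_ne : ∀ τ, cminus τ ≠ 0

variable {F : Type} [Field F]

/-- `l` is, for the embedding `τ` of the coefficients, the logarithm of the L-function of `M_K`
(without the Euler factors over the bad primes) at `s`: the sum of
`tr(Frob_P^n | M) / (n N(P)^(n s))` over the primes `P` of `K` and the `n ≥ 1`. -/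
def IsLog (M : Motive F) (τ : F →+* ℂ) (K : Type) [Field K] [NumberField K] (s l : ℂ) : Prop :=
  HasSum (baseTerm (frobTrace M.bad (M.eig τ)) K s) l

/-- `c` is Deligne's period of `R_{K/ℚ} M_K` at `s₀`, an element of `F ⊗ ℂ`, the product of the
fields `ℂ` over the embeddings `τ` of `F`:
`c⁺(R_{K/ℚ} M_K, s₀) = c⁺(M, s₀)^(r₁ + r₂) c⁻(M, s₀)^(r₂) (√d_K)^r`, where `K` has `r₁` real and `r₂`
complex places and the discriminant `d_K`, and `2 r` is the rank of `M`. -/
def IsPeriod (M : Motive F) (K : Type) [Field K] [NumberField K] (c : (F →+* ℂ) → ℂ) : Prop :=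
  ∃ δ : ℂ, δ ^ 2 = (discr K : ℂ) ∧ ∀ τ,
    c τ = M.cplus τ ^ (InfinitePlace.nrRealPlaces K + InfinitePlace.nrComplexPlaces K)
      * M.cminus τ ^ InfinitePlace.nrComplexPlaces K * δ ^ M.r

/-- Deligne's conjecture for the motive `R_{K/ℚ} M_K` at `s₀`: the value of the L-function in
`F ⊗ ℂ` is the product of the period and an element `e` of `F`. -/
def Deligne (M : Motive F) (K : Type) [Field K] [NumberField K] : Prop :=
  ∃ (l c : (F →+* ℂ) → ℂ) (e : F), IsPeriod M K c ∧ ∀ τ, IsLog M τ K M.s₀ (l τ) ∧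
    Complex.exp (l τ) = c τ * τ e

/-- A number field. -/
structure NF where
  /-- the field -/
  K : Type
  [fK : Field K]
  [nK : NumberField K]

attribute [instance] NF.fK NF.nK

/-- the data of the motive -/
noncomputable def Motive.dat (M : Motive F) (τ : F →+* ℂ) (s : ℂ)
    (hs : 1 + (M.weight : ℝ) / 2 < s.re) : Dat where
  W := frobTrace M.bad (M.eig τ)
  w := (M.weight : ℝ) / 2
  B := (2 * M.r : ℕ)
  s := s
  hB := Nat.cast_nonneg _
  hW := frobTrace_bound (M.norm_eig τ)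
  hs := by linarith
  cp := Units.mk0 (M.cplus τ) (M.cplus_ne τ)
  cm := Units.mk0 (M.cminus τ) (M.cminus_ne τ)

lemma Motive.right_re (M : Motive F) : 1 + (M.weight : ℝ) / 2 < ((M.s₀ : ℤ) : ℂ).re := by
  obtain ⟨k, hk⟩ := M.odd_weight
  have h1 := M.right
  rw [hk] at h1
  have h2 : k + 2 ≤ M.s₀ := by omega
  have h3 : ((k : ℤ) : ℝ) + 2 ≤ (M.s₀ : ℝ) := by exact_mod_cast h2
  have h4 : (M.weight : ℝ) = 2 * (k : ℝ) + 1 := by
    rw [hk]
    push_cast
    ring
  rw [Complex.intCast_re, h4]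
  linarith

/-- the data at `s₀` -/
noncomputable abbrev Motive.dat0 (M : Motive F) (τ : F →+* ℂ) : Dat := M.dat τ M.s₀ M.right_re

lemma isLog_iff {M : Motive F} {τ : F →+* ℂ} {K : Type} [Field K] [NumberField K] {s l : ℂ} :
    IsLog M τ K s l ↔
      HasSum (twistTerm (frobTrace M.bad (M.eig τ)) (E := selfExt K) (fun _ => 1) s) l := by
  rw [IsLog, baseTerm_eq]

lemma exists_log {M : Motive F} (τ : F →+* ℂ) (K : Type) [Field K] [NumberField K] {s : ℂ}
    (hs : 1 + (M.weight : ℝ) / 2 < s.re) : ∃ l, IsLog M τ K s l :=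
  ⟨_, isLog_iff.mpr (twist_hasSum (M.dat τ s hs) (E := selfExt K) (fun _ => 1))⟩

/-- the quotient without the discriminant -/
noncomputable def quo (M : Motive F) (τ : F →+* ℂ) (K : Type) [Field K] [NumberField K] (l : ℂ) :
    ℂ :=
  Complex.exp l / (M.cplus τ ^ (InfinitePlace.nrRealPlaces K + InfinitePlace.nrComplexPlaces K)
      * M.cminus τ ^ InfinitePlace.nrComplexPlaces K)

lemma per_ne (M : Motive F) (τ : F →+* ℂ) (K : Type) [Field K] [NumberField K] :
    M.cplus τ ^ (InfinitePlace.nrRealPlaces K + InfinitePlace.nrComplexPlaces K)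
      * M.cminus τ ^ InfinitePlace.nrComplexPlaces K ≠ 0 :=
  mul_ne_zero (pow_ne_zero _ (M.cplus_ne τ)) (pow_ne_zero _ (M.cminus_ne τ))

/-- a power of the defect -/
lemma pow_iff {M : Motive F} {K : Type} [Field K] [NumberField K] {l : (F →+* ℂ) → ℂ}
    (hl : ∀ τ, IsLog M τ K M.s₀ (l τ)) (σ : ℂ ≃+* ℂ) (τ : F →+* ℂ) (n : ℕ) :
    (eInv (M.dat0 τ) (M.dat0 ((σ : ℂ →+* ℂ).comp τ)) M.r σ).val K K (fun _ => 1) ^ n = 1 ↔
      (σ (quo M τ K (l τ)) * ((sg K σ : ℤ) : ℂ) ^ M.r) ^ n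
        = quo M ((σ : ℂ →+* ℂ).comp τ) K (l ((σ : ℂ →+* ℂ).comp τ)) ^ n := by
  have h0 := exact_iff (D := M.dat0 τ) (D' := M.dat0 ((σ : ℂ →+* ℂ).comp τ)) (r := M.r) (σ := σ)
    (Pool.Agent.W2helper76.DP.isChr_one (selfExt K)) n
  have hone : (fun g : G (selfExt K) => σ ((fun _ => (1 : ℂ)) g)) = fun _ => 1 := by
    funext g
    exact map_one σ
  rw [hone] at h0
  refine h0.trans ?_
  have hl1 := isLog_iff.mp (hl τ)
  have hl2 := isLog_iff.mp (hl ((σ : ℂ →+* ℂ).comp τ))
  constructor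
  · rintro ⟨a, b, l1, l2, d, e1, e2, hl1', hl2', hd, h⟩
    rw [artinRank_self] at e1
    rw [conjTrace_self] at e2
    have e3 : InfinitePlace.nrRealPlaces K + InfinitePlace.nrComplexPlaces K = a := by
      have : ((InfinitePlace.nrRealPlaces K + InfinitePlace.nrComplexPlaces K : ℕ) : ℂ) = a := by
        linear_combination (e1 + e2) / 2
      exact_mod_cast this
    have e4 : InfinitePlace.nrComplexPlaces K = b := by
      have : ((InfinitePlace.nrComplexPlaces K : ℕ) : ℂ) = b := by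
        linear_combination (e1 - e2) / 2
      exact_mod_cast this
    subst e3 e4
    rw [hl1'.unique hl1, hl2'.unique hl2, hd.unique (isArtinDet_self K σ)] at h
    exact h
  · intro h
    exact ⟨_, _, _, _, _, artinRank_self K, conjTrace_self K, hl1, hl2, isArtinDet_self K σ, h⟩

lemma deligne_iff [NumberField F] {M : Motive F} (K : Type) [Field K] [NumberField K] :
    Deligne M K ↔ ∀ (σ : ℂ ≃+* ℂ) (τ : F →+* ℂ),
      (eInv (M.dat0 τ) (M.dat0 ((σ : ℂ →+* ℂ).comp τ)) M.r σ).val K K (fun _ => 1) = 1 := by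
  choose l hl using fun τ : F →+* ℂ => exists_log (M := M) τ K M.right_re
  obtain ⟨δ, hδ⟩ : ∃ δ : ℂ, δ ^ 2 = (discr K : ℂ) :=
    IsAlgClosed.exists_pow_nat_eq _ (by norm_num)
  have h1 : (∀ (σ : ℂ ≃+* ℂ) (τ : F →+* ℂ),
      (eInv (M.dat0 τ) (M.dat0 ((σ : ℂ →+* ℂ).comp τ)) M.r σ).val K K (fun _ => 1) = 1) ↔
      ∀ (σ : ℂ ≃+* ℂ) (τ : F →+* ℂ), σ (quo M τ K (l τ)) * ((sg K σ : ℤ) : ℂ) ^ M.r
        = quo M ((σ : ℂ →+* ℂ).comp τ) K (l ((σ : ℂ →+* ℂ).comp τ)) := by
    refine forall_congr' fun σ => forall_congr' fun τ => ?_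
    have := pow_iff hl σ τ 1
    simpa only [pow_one] using this
  rw [h1]
  have hsg : ∀ σ : ℂ ≃+* ℂ, ((sg K σ : ℤ) : ℂ) ^ M.r * ((sg K σ : ℤ) : ℂ) ^ M.r = 1 := by
    intro σ
    rw [← mul_pow, sg_sq, one_pow]
  constructor
  · rintro ⟨l', c, e, ⟨δ', hδ', hc⟩, h⟩ σ τ
    have hq : ∀ τ, quo M τ K (l τ) = τ e * δ' ^ M.r := by
      intro τ
      obtain ⟨h2, h3⟩ := h τ
      rw [HasSum.unique h2 (hl τ), hc τ] at h3
      rw [quo, h3, div_eq_iff (per_ne M τ K)]
      ring
    rw [hq, hq, map_mul, map_pow, sqrt_disc K σ hδ', mul_pow]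
    have h4 : ((σ : ℂ →+* ℂ).comp τ) e = σ (τ e) := rfl
    rw [h4]
    linear_combination (σ (τ e) * δ' ^ M.r) * hsg σ
  · intro h
    have hδ0 : δ ^ M.r ≠ 0 := pow_ne_zero _ (disc_ne K hδ)
    obtain ⟨e, he⟩ := coef_descent F (fun τ => quo M τ K (l τ) / δ ^ M.r) (by
      intro σ τ
      have hs0 : ((sg K σ : ℤ) : ℂ) ^ M.r ≠ 0 := by
        intro h0
        have := hsg σ
        rw [h0, mul_zero] at this
        exact zero_ne_one this
      rw [map_div₀, map_pow, sqrt_disc K σ hδ, mul_pow,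
        div_eq_div_iff (mul_ne_zero hs0 hδ0) hδ0, ← h σ τ]
      linear_combination (-σ (quo M τ K (l τ)) * δ ^ M.r) * hsg σ)
    refine ⟨l, _, e, ⟨δ, hδ, fun τ => rfl⟩, fun τ => ⟨hl τ, ?_⟩⟩
    have h2 := he τ
    rw [div_eq_iff hδ0, quo, div_eq_iff (per_ne M τ K)] at h2
    rw [h2]
    ring

/-- the trivial characters of the totally complex fields -/
def CxTriv (x : Pair) : Prop := ∃ L : NF, IsTotallyComplex L.K ∧ x = oneP L.K

/-- the relation for a totally real field -/
theorem rel_real {M : Type} [CommGroup M] (A : Pool.Agent.K4H74.ST.ArtinInvariant M) (K : Type)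
    [Field K] [NumberField K] (hK : IsTotallyReal K) :
    ∃ (m : ℕ) (F : Fin m → NF) (k : Fin m → ℤ), (∀ i, IsTotallyComplex (F i).K) ∧
      pval A (oneP K) ^ 1 = ∏ i : Fin (m + 1),
        pval A ((Fin.cons (α := fun _ => Pair) (oneP ℚ) (fun i => oneP (F i).K) :
          Fin (m + 1) → Pair) i) ^
          ((Fin.cons (α := fun _ => ℤ) (Module.finrank ℚ K : ℤ) k : Fin (m + 1) → ℤ) i) := by
  let P : Subgroup M := Subgroup.closure {y : M | ∃ x : Pair, CxTriv x ∧ y = pval A x}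
  let B : Pool.Agent.K4H74.ST.ArtinInvariant (M ⧸ P) :=
    mapInv (QuotientGroup.mk' P) A
  have hC : ∀ (F : Type) [Field F] [NumberField F], IsTotallyComplex F →
      B.val F F (fun _ => 1) = 1 := by
    intro F _ _ hF
    refine (QuotientGroup.eq_one_iff (N := P) _).mpr ?_
    exact Subgroup.subset_closure ⟨oneP F, ⟨⟨F⟩, hF, rfl⟩, rfl⟩
  have h1 := real_val (A := B) hC K hK
  have h2 : QuotientGroup.mk' P (pval A (oneP K) *
      (pval A (oneP ℚ) ^ (Module.finrank ℚ K : ℤ))⁻¹) = 1 := by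
    rw [map_mul, map_inv, map_zpow, mul_inv_eq_one, zpow_natCast]
    exact h1
  have h3 := (QuotientGroup.eq_one_iff (N := P) _).mp h2
  obtain ⟨m, x, k, hx, h4⟩ := closure_form A CxTriv h3
  choose F hF hxF using hx
  refine ⟨m, F, k, hF, ?_⟩
  rw [Fin.prod_univ_succ]
  simp only [Fin.cons_zero, Fin.cons_succ]
  rw [Finset.prod_congr rfl (fun i _ => by rw [← hxF i]), ← h4, pow_one,
    mul_comm (pval A (oneP K)), mul_inv_cancel_left]

/-- (1) For every motive `M` of weight `w` and every number field `K` the series for the logarithm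
of the L-function of `M_K` converges for `Re s > w / 2 + 1`.

(2) For every totally real number field `K` there are totally complex number fields `F_i` and
integers `k_i` such that for all motives `M` with coefficients, with `w` the weight of `M` and
`Re s > w / 2 + 1`, `L(M_K, s) = L(M, s)^[K : ℚ] ∏ L(M_{F_i}, s)^(k_i)` (for the logarithms).

(3) If Deligne's conjecture at `s₀` holds for `M` and for `R_{K/ℚ} M_K` for all totally complex
number fields `K`, then it holds for `R_{K/ℚ} M_K` for all totally real number fields `K`, and for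
every number field `K` some power of `L(M_K, s₀)` is the product of the same power of the period
and an element of `F`. -/
theorem result :
    -- (1)
    (∀ (F : Type) [Field F] (M : Motive F) (τ : F →+* ℂ) (K : Type) [Field K] [NumberField K]
      (s : ℂ), 1 + (M.weight : ℝ) / 2 < s.re → ∃ l, IsLog M τ K s l) ∧
    -- (2)
    (∀ (K : Type) [Field K] [NumberField K], IsTotallyReal K →
      ∃ (m : ℕ) (L : Fin m → NF) (k : Fin m → ℤ), (∀ i, IsTotallyComplex (L i).K) ∧
        ∀ (F : Type) [Field F] (M : Motive F) (τ : F →+* ℂ) (s : ℂ),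
          1 + (M.weight : ℝ) / 2 < s.re →
          ∀ (l l₁ : ℂ) (l' : Fin m → ℂ), IsLog M τ K s l → IsLog M τ ℚ s l₁ →
            (∀ i, IsLog M τ (L i).K s (l' i)) →
            l = Module.finrank ℚ K * l₁ + ∑ i, k i * l' i) ∧
    -- (3)
    (∀ (F : Type) [Field F] [NumberField F] (M : Motive F), Deligne M ℚ →
      (∀ (K : Type) [Field K] [NumberField K], IsTotallyComplex K → Deligne M K) →
      (∀ (K : Type) [Field K] [NumberField K], IsTotallyReal K → Deligne M K) ∧
      ∀ (K : Type) [Field K] [NumberField K], ∃ (n : ℕ) (l c : (F →+* ℂ) → ℂ) (e : F), 0 < n ∧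
        IsPeriod M K c ∧ ∀ τ, IsLog M τ K M.s₀ (l τ) ∧
          Complex.exp (l τ) ^ n = c τ ^ n * τ e) := by
  refine ⟨fun F _ M τ K _ _ s hs => exists_log τ K hs, ?_, ?_⟩
  · intro K _ _ hK
    obtain ⟨m, L, k, hL, h⟩ := rel_real univInv K hK
    refine ⟨m, L, k, hL, fun F _ M τ s hs l l₁ l' hl hl₁ hl' => ?_⟩
    have h3 := rel_log (M.dat τ s hs) h (l := l) (l' := (Fin.cons (α := fun _ => ℂ) l₁ l' :
      Fin (m + 1) → ℂ)) (isLog_iff.mp hl) (fun i => by
        refine Fin.cases ?_ (fun j => ?_) i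
        · exact isLog_iff.mp hl₁
        · exact isLog_iff.mp (hl' j))
    rw [Fin.sum_univ_succ] at h3
    simp only [Fin.cons_zero, Fin.cons_succ, Nat.cast_one, one_mul] at h3
    rw [h3]
    push_cast
    rfl
  · intro F _ _ M hQ hC
    have hC' : ∀ (σ : ℂ ≃+* ℂ) (τ : F →+* ℂ), ∀ (K : Type) [Field K] [NumberField K],
        IsTotallyComplex K →
        (eInv (M.dat0 τ) (M.dat0 ((σ : ℂ →+* ℂ).comp τ)) M.r σ).val K K (fun _ => 1) = 1 :=
      fun σ τ K _ _ hK => (deligne_iff K).mp (hC K hK) σ τ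
    have hQ' := (deligne_iff (M := M) ℚ).mp hQ
    refine ⟨fun K _ _ hK => ?_, fun K _ _ => ?_⟩
    · rw [deligne_iff K]
      intro σ τ
      rw [real_val (A := eInv (M.dat0 τ) (M.dat0 ((σ : ℂ →+* ℂ).comp τ)) M.r σ) (hC' σ τ) K hK,
        hQ' σ τ, one_pow]
    · choose l hl using fun τ : F →+* ℂ => exists_log (M := M) τ K M.right_re
      obtain ⟨δ, hδ⟩ : ∃ δ : ℂ, δ ^ 2 = (discr K : ℂ) :=
        IsAlgClosed.exists_pow_nat_eq _ (by norm_num)
      let C : Pool.Agent.K4H74.ST.ArtinInvariant ((ℂ ≃+* ℂ) × (F →+* ℂ) → ℂˣ) :=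
        piInv fun x : (ℂ ≃+* ℂ) × (F →+* ℂ) =>
          eInv (M.dat0 x.2) (M.dat0 ((x.1 : ℂ →+* ℂ).comp x.2)) M.r x.1
      let B : Pool.Agent.K4H74.ST.ArtinInvariant
          (((ℂ ≃+* ℂ) × (F →+* ℂ) → ℂˣ) ⧸ sat (⊥ : Subgroup ((ℂ ≃+* ℂ) × (F →+* ℂ) → ℂˣ))) :=
        mapInv (QuotientGroup.mk' (sat ⊥)) C
      have hB : ∀ (L : Type) [Field L] [NumberField L],
          (∀ (σ : ℂ ≃+* ℂ) (τ : F →+* ℂ),
            (eInv (M.dat0 τ) (M.dat0 ((σ : ℂ →+* ℂ).comp τ)) M.r σ).val L L (fun _ => 1) = 1) →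
          B.val L L (fun _ => 1) = 1 := by
        intro L _ _ hL
        have h1 : C.val L L (fun _ => 1) = 1 := funext fun x => hL x.1 x.2
        change QuotientGroup.mk' (sat ⊥) (C.val L L (fun _ => 1)) = 1
        rw [h1, map_one]
      have h2 := triv_one (A := B) (tf_sat ⊥)
        (fun L _ _ hL => hB L (fun σ τ => hC' σ τ L hL)) (hB ℚ hQ') K
      obtain ⟨n, hn, h3⟩ := (QuotientGroup.eq_one_iff (N := sat ⊥) _).mp h2
      rw [Subgroup.mem_bot] at h3
      have h4 : ∀ (σ : ℂ ≃+* ℂ) (τ : F →+* ℂ), σ (quo M τ K (l τ) ^ (2 * n))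
          = quo M ((σ : ℂ →+* ℂ).comp τ) K (l ((σ : ℂ →+* ℂ).comp τ)) ^ (2 * n) := by
        intro σ τ
        have h5 := (pow_iff hl σ τ n).mp (congrFun h3 (σ, τ))
        have h6 : ((sg K σ : ℤ) : ℂ) ^ (2 * (M.r * n)) = 1 := by
          rw [pow_mul, pow_two, sg_sq, one_pow]
        calc σ (quo M τ K (l τ) ^ (2 * n))
            = (σ (quo M τ K (l τ)) ^ n) ^ 2 * ((sg K σ : ℤ) : ℂ) ^ (2 * (M.r * n))
            := by rw [h6, map_pow, mul_one, ← pow_mul, mul_comm]
          _ = ((σ (quo M τ K (l τ)) * ((sg K σ : ℤ) : ℂ) ^ M.r) ^ n) ^ 2 := by ring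
          _ = _ := by rw [h5, ← pow_mul, mul_comm]
      obtain ⟨e, he⟩ := coef_descent F (fun τ => quo M τ K (l τ) ^ (2 * n)) h4
      refine ⟨2 * n, l, _, e / (discr K : F) ^ (M.r * n), by omega, ⟨δ, hδ, fun τ => rfl⟩,
        fun τ => ⟨hl τ, ?_⟩⟩
      have hq := he τ
      rw [quo, div_pow, div_eq_iff (pow_ne_zero _ (per_ne M τ K))] at hq
      rw [hq, mul_pow _ (δ ^ M.r)]
      have h7 : (δ ^ M.r) ^ (2 * n) = (discr K : ℂ) ^ (M.r * n) := by
        rw [← hδ]
        ring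
      have hd' : ((discr K : ℤ) : ℂ) ^ (M.r * n) ≠ 0 :=
        pow_ne_zero _ (by exact_mod_cast discr_ne_zero K)
      rw [h7, map_div₀, map_pow, map_intCast]
      field_simp

end Pool.Agent.Results.MP_cd171c_nt.TotallyRealFields
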