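import Mathlib
import Pool.Agent.W2helper23.SG.Two
import Pool.Agent.W2helper76.DP.Real

/-!
# Deligne's conjecture for the Artin twists of a motive of odd weight: only the values of the
character at the elements of `2`-power order matter

The other definitions are in `Pool.Agent.W2helper23.DEL.Def` (the numerical data `Mot` of the
motive `M`, `IsRatio`, `IsDefect`, `induce`, `Ratio`, `Defect`) and `Pool.Agent.K4H74.SC.Core`
(`Ext`, `Pair`, `G`, `IsChr`, `lin`, `logTerm`).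
-/

set_option autoImplicit false

namespace Pool.Agent.Results.MP_cd171c_nt.TwoPowerElements

open NumberField Pool.Agent.K4H74 Pool.Agent.K4H74.SK Pool.Agent.K4H74.ST Pool.Agent.K4H34.AL
  Pool.Agent.W2helper23.DEL Pool.Agent.W2helper23.SG

/-- The faithful linear characters of the (cyclic) extensions `L / K`, `K` totally complex. -/
inductive Cx : Pair → Prop
  | complex (E : Ext) (ψ : G E →* ℂˣ) : IsTotallyComplex E.K → Function.Injective ψ →
      Cx ⟨E, lin ψ⟩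

/-- `χ` and `χ'` agree on the elements of `2`-power order. -/
def Agree {E : Ext} (χ χ' : G E → ℂ) : Prop :=
  ∀ (g : G E) (k : ℕ), g ^ (2 ^ k) = 1 → χ g = χ' g

lemma Cx.isChr {x : Pair} (h : Cx x) : IsChr x.2 := by
  cases h with
  | complex E ψ _ _ => exact isChr_lin ψ

/-- Let `M` be the numerical data of a pure motive `M` over `ℚ` of odd weight with coefficients in
`F`, critical at `s = 0`, with `s = 0` in the region of absolute convergence. For a character `χ` of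
a Galois extension `L / K` of number fields let `M(χ)` be the motive over `ℚ` which one gets from
`M_K ⊗ χ` by restriction of scalars. Let `χ` and `χ'` be characters of `Gal(L/K)` which agree on the
elements of `2`-power order.

(0) There is exactly one ratio `L(M(χ), 0) / (c⁺(M)^(m⁺) c⁻(M)^(m⁻))` for each embedding of `F` and
exactly one defect for each embedding and automorphism of `ℂ`.

(1) There are faithful linear characters `ψ i` of extensions of totally complex fields and integers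
`k i` with `L(s, χ) = L(s, χ') ∏ L(s, ψ i)^(k i)` (in terms of logarithms) such that for all `M` the
ratios and the defects satisfy the same relation.

(2) If Deligne's conjecture holds for the `M(ψ)`, `ψ` a faithful linear character over a totally
complex field (all their defects are `1`), then `M(χ)` and `M(χ')` have the same defects.

(3) In this case, if `[L : K]` is odd, the defects of `M(χ)` are those of `M_K` to the power `χ(1)`:
Deligne's conjecture for `M_K` implies it for all `M(χ)`. In particular Deligne's conjecture for `M`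
implies it for the twists of `M` by the characters of the Galois extensions of `ℚ` of odd degree. -/
theorem result (F : Type) [Field F] :
    -- (0)
    (∀ (M : Mot F) (x : Pair), IsChr x.2 → (∀ τ : F →+* ℂ, ∃! r : ℂ, Ratio M τ x r) ∧
      ∀ (σ : ℂ ≃+* ℂ) (τ : F →+* ℂ), ∃! u : ℂˣ, Defect M σ τ x u) ∧
    -- (1)
    (∀ (E : Ext) (χ χ' : G E → ℂ), IsChr χ → IsChr χ' → Agree χ χ' →
      ∃ (r : ℕ) (y : Fin r → Pair) (k : Fin r → ℤ), (∀ i, Cx (y i)) ∧
        (∀ s : ℂ, 1 < s.re → ∀ (l l' : ℂ) (m : Fin r → ℂ), HasSum (logTerm χ s) l →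
          HasSum (logTerm χ' s) l' → (∀ i, HasSum (logTerm (y i).2 s) (m i)) →
          l = l' + ∑ i, k i * m i) ∧
        ∀ M : Mot F,
          (∀ (τ : F →+* ℂ) (a a' : ℂ) (b : Fin r → ℂ), Ratio M τ ⟨E, χ⟩ a →
            Ratio M τ ⟨E, χ'⟩ a' → (∀ i, Ratio M τ (y i) (b i)) → a = a' * ∏ i, b i ^ k i) ∧
          ∀ (σ : ℂ ≃+* ℂ) (τ : F →+* ℂ) (u u' : ℂˣ) (v : Fin r → ℂˣ), Defect M σ τ ⟨E, χ⟩ u →
            Defect M σ τ ⟨E, χ'⟩ u' → (∀ i, Defect M σ τ (y i) (v i)) →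
            u = u' * ∏ i, v i ^ k i) ∧
    ∀ (M : Mot F) (σ : ℂ ≃+* ℂ) (τ : F →+* ℂ), (∀ y : Pair, Cx y → Defect M σ τ y 1) →
      -- (2)
      (∀ (E : Ext) (χ χ' : G E → ℂ), IsChr χ → IsChr χ' → Agree χ χ' →
        ∀ u : ℂˣ, Defect M σ τ ⟨E, χ⟩ u ↔ Defect M σ τ ⟨E, χ'⟩ u) ∧
      -- (3)
      (∀ (E : Ext) (χ : G E → ℂ), IsChr χ → Odd (Module.finrank E.K E.L) →
        ∃ n : ℕ, χ 1 = n ∧ ∀ u v : ℂˣ, Defect M σ τ ⟨E, χ⟩ u →
          Defect M σ τ ⟨⟨E.K, E.K⟩, fun _ => 1⟩ v → u = v ^ n) ∧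
      -- (4)
      ∀ (E : Ext) (χ : G E → ℂ), IsChr χ → IsTotallyReal E.K → Odd (Module.finrank E.K E.L) →
        ∃ n : ℕ, χ 1 = n ∧ ∀ u v : ℂˣ, Defect M σ τ ⟨E, χ⟩ u →
          Defect M σ τ ⟨⟨ℚ, ℚ⟩, fun _ => 1⟩ v → u = v ^ (Module.finrank ℚ E.K * n) := by
  refine ⟨fun M x hx => ⟨fun τ => ⟨_, ratio_val τ hx, fun r hr => ratio_eq hx hr⟩,
    fun σ τ => ⟨_, defect_val σ τ hx, fun u hu => defect_eq hx hu⟩⟩,
    fun E χ χ' hχ hχ' h0 => ?_, fun M σ τ hC => ⟨fun E χ χ' hχ hχ' h0 u => ?_,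
    fun E χ hχ hodd => ?_, fun E χ hχ hreal hodd => ?_⟩⟩
  · obtain ⟨r, y, k, hy, h⟩ := two_form (univInv F) Cx
      (fun E hE ψ hψ => Cx.complex E ψ hE hψ) hχ hχ' h0
    obtain ⟨h1, h2⟩ := univ_rel' h
    refine ⟨r, y, k, hy, h1, fun M => ⟨fun τ a a' b ha ha' hb => ?_,
      fun σ τ u u' v hu hu' hv => ?_⟩⟩
    · have h3 := congrArg (fun z : ℂˣ => (z : ℂ)) ((h2 M).1 τ)
      simp only [Units.val_mul, Units.val_zpow_eq_zpow_val, Units.coe_prod] at h3
      rw [ratio_eq (x := ⟨E, χ⟩) hχ ha, ratio_eq (x := ⟨E, χ'⟩) hχ' ha', h3]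
      congr 1
      exact Finset.prod_congr rfl fun i _ => by rw [ratio_eq (hy i).isChr (hb i)]
    · rw [defect_eq (x := ⟨E, χ⟩) hχ hu, defect_eq (x := ⟨E, χ'⟩) hχ' hu', (h2 M).2 σ τ]
      congr 1
      exact Finset.prod_congr rfl fun i _ => by rw [defect_eq (hy i).isChr (hv i)]
  · have i2 : TrivComplex (defInv M σ τ) := fun K L _ _ _ _ _ _ hK ψ hψ =>
      (defect_eq (x := ⟨⟨K, L⟩, lin (E := ⟨K, L⟩) ψ⟩) (isChr_lin (E := ⟨K, L⟩) ψ)
        (hC _ (Cx.complex ⟨K, L⟩ ψ hK hψ))).symm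
    have h1 : pval (defInv M σ τ) ⟨E, χ⟩ = pval (defInv M σ τ) ⟨E, χ'⟩ :=
      exact_two i2 E.K E.L (isChr_iff.mp hχ) (isChr_iff.mp hχ') h0
    have h2 := defect_val (M := M) (x := ⟨E, χ⟩) σ τ hχ
    have h3 := defect_val (M := M) (x := ⟨E, χ'⟩) σ τ hχ'
    constructor
    · intro hu
      rw [defect_eq (x := ⟨E, χ⟩) hχ hu, h1]
      exact h3
    · intro hu
      rw [defect_eq (x := ⟨E, χ'⟩) hχ' hu, ← h1]
      exact h2
  · have i2 : TrivComplex (defInv M σ τ) := fun K L _ _ _ _ _ _ hK ψ hψ =>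
      (defect_eq (x := ⟨⟨K, L⟩, lin (E := ⟨K, L⟩) ψ⟩) (isChr_lin (E := ⟨K, L⟩) ψ)
        (hC _ (Cx.complex ⟨K, L⟩ ψ hK hψ))).symm
    obtain ⟨n, hn, h⟩ := val_odd_deg i2 E.K E.L hodd (isChr_iff.mp hχ)
    refine ⟨n, hn, fun u v hu hv => ?_⟩
    rw [defect_eq (x := ⟨E, χ⟩) hχ hu,
      defect_eq (x := ⟨⟨E.K, E.K⟩, fun _ => 1⟩) (Pool.Agent.W2helper23.DEL.isChr_one ⟨E.K, E.K⟩) hv]
    exact h
  · have i2 : TrivComplex (defInv M σ τ) := fun K L _ _ _ _ _ _ hK ψ hψ =>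
      (defect_eq (x := ⟨⟨K, L⟩, lin (E := ⟨K, L⟩) ψ⟩) (isChr_lin (E := ⟨K, L⟩) ψ)
        (hC _ (Cx.complex ⟨K, L⟩ ψ hK hψ))).symm
    have i3 : ∀ (K : Type) [Field K] [NumberField K], IsTotallyComplex K →
        (defInv M σ τ).val K K (fun _ => 1) = 1 := by
      intro K _ _ hK
      have h1 := i2 K K hK 1 (fun a b _ => Subsingleton.elim a b)
      simpa using h1
    obtain ⟨n, hn, h⟩ := val_odd_deg i2 E.K E.L hodd (isChr_iff.mp hχ)
    refine ⟨n, hn, fun u v hu hv => ?_⟩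
    rw [defect_eq (x := ⟨E, χ⟩) hχ hu,
      defect_eq (x := ⟨⟨ℚ, ℚ⟩, fun _ => 1⟩) (Pool.Agent.W2helper23.DEL.isChr_one ⟨ℚ, ℚ⟩) hv]
    refine h.trans ?_
    rw [Pool.Agent.W2helper76.DP.real_val i3 E.K hreal, ← pow_mul]
    rfl

end Pool.Agent.Results.MP_cd171c_nt.TwoPowerElements
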